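import Pool.Agent.Q4.SubApp

set_option autoImplicit false

/-!
# Common divisors of `⌊a b^m⌋ ⌊c b^m⌋ + 1` and `b^m`
-/

namespace Pool.Agent.Q4.FloorGcd

open Filter Topology
open Pool.Agent.TH932.Germs (UU ev_of_atTop)
open Pool.Agent.TH796.AL (Base)
open Pool.Agent.Q4.SubApp

/-! ### The primes of the base -/

theorem exists_base (b : ℕ) (hb : 2 ≤ b) :
    ∃ (m : ℕ) (B : Base m), (∀ v, (B.P v).Prime) ∧
      (∀ g M : ℕ, g ∣ b ^ M → g ≠ 0 → g = ∏ v, B.P v ^ (g.factorization (B.P v))) := by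
  classical
  let σ := b.primeFactors.equivFin
  have hP : ∀ v, ((σ.symm v : b.primeFactors) : ℕ) ∈ b.primeFactors := fun v => (σ.symm v).2
  refine ⟨b.primeFactors.card, ⟨fun v => (σ.symm v : b.primeFactors), ?_, ?_⟩, ?_, ?_⟩
  · intro v
    exact (Nat.prime_of_mem_primeFactors (hP v)).two_le
  · intro i j hij
    rw [Nat.isCoprime_iff_coprime]
    rw [Nat.coprime_primes (Nat.prime_of_mem_primeFactors (hP i))
      (Nat.prime_of_mem_primeFactors (hP j))]
    intro h
    apply hij
    exact σ.symm.injective (Subtype.ext h)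
  · intro v
    exact Nat.prime_of_mem_primeFactors (hP v)
  · intro g M hg hg0
    have h1 : ∏ v, ((σ.symm v : b.primeFactors) : ℕ) ^
        (g.factorization ((σ.symm v : b.primeFactors) : ℕ))
        = ∏ p ∈ b.primeFactors, p ^ (g.factorization p) := by
      rw [← Finset.prod_coe_sort b.primeFactors (fun p => p ^ (g.factorization p))]
      exact Equiv.prod_comp σ.symm (fun p : b.primeFactors => (p : ℕ) ^ (g.factorization (p : ℕ)))
    change g = ∏ v, ((σ.symm v : b.primeFactors) : ℕ) ^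
        (g.factorization ((σ.symm v : b.primeFactors) : ℕ))
    rw [h1]
    conv_lhs => rw [← Nat.prod_factorization_pow_eq_self hg0]
    apply Finsupp.prod_of_support_subset
    · intro p hp
      rw [Nat.support_factorization] at hp
      have h2 : g.primeFactors ⊆ (b ^ M).primeFactors :=
        Nat.primeFactors_mono hg (pow_ne_zero _ (by omega))
      have h3 := Nat.mem_primeFactors.1 (h2 hp)
      exact Nat.mem_primeFactors.2 ⟨h3.1, h3.1.dvd_of_dvd_pow h3.2.1, by omega⟩
    · intro p _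
      exact pow_zero p

/-! ### Sizes -/

section size
variable {b : ℕ} {mm : ℕ → ℕ}

theorem tendsto_pow_mm (hb : 2 ≤ b) (hmm : ∀ t, t ≤ mm t) :
    Tendsto (fun t => (b : ℝ) ^ mm t) atTop atTop := by
  have h1 : Tendsto mm atTop atTop := tendsto_atTop_mono hmm tendsto_id
  have h2 : (1 : ℝ) < b := by exact_mod_cast (by omega : 1 < b)
  exact (tendsto_pow_atTop_atTop_of_one_lt h2).comp h1

theorem coef_zero (hb : 2 ≤ b) (hmm : ∀ t, t ≤ mm t) {A C : ℝ}
    (h : ∀ᶠ t in (UU : Filter ℕ), |A * (b : ℝ) ^ mm t| ≤ C) : A = 0 := by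
  by_contra hA
  have hA' : 0 < |A| := abs_pos.2 hA
  have h1 := ev_of_atTop ((tendsto_pow_mm hb hmm).eventually_gt_atTop (C / |A|))
  obtain ⟨t, ht1, ht2⟩ := (h.and h1).exists
  rw [abs_mul, abs_of_nonneg (by positivity : (0 : ℝ) ≤ (b : ℝ) ^ mm t)] at ht1
  rw [div_lt_iff₀ hA'] at ht2
  nlinarith

theorem size_bound (hmm : ∀ t, t ≤ mm t) {z : ℕ → ℝ} {C s : ℝ}
    (h : ∀ᶠ t in (UU : Filter ℕ), |z t| ≤ C * Real.exp (s * Real.log b * mm t)) :
    ∀ ε : ℝ, 0 < ε → ∀ᶠ t in (UU : Filter ℕ),
      |z t| ≤ Real.exp (-(-(s * Real.log b) - ε) * mm t) := by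
  intro ε hε
  have h0 : Tendsto (fun t => (mm t : ℝ)) atTop atTop :=
    tendsto_natCast_atTop_atTop.comp (tendsto_atTop_mono hmm tendsto_id)
  have h1 : ∀ᶠ t in (UU : Filter ℕ), C ≤ Real.exp (ε * mm t) := by
    apply ev_of_atTop
    filter_upwards [h0.eventually_ge_atTop (C / ε)] with t ht
    rw [div_le_iff₀ hε] at ht
    have := Real.add_one_le_exp (ε * mm t)
    linarith
  filter_upwards [h, h1] with t ht ht1
  calc |z t| ≤ C * Real.exp (s * Real.log b * mm t) := ht
    _ ≤ Real.exp (ε * mm t) * Real.exp (s * Real.log b * mm t) := by gcongr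
    _ = Real.exp (-(-(s * Real.log b) - ε) * mm t) := by
      rw [← Real.exp_add]; ring_nf

theorem exp_log_mm (hb : 2 ≤ b) (n : ℕ) : Real.exp (Real.log b * n) = (b : ℝ) ^ n := by
  have h2 : (0 : ℝ) < b := by exact_mod_cast (by omega : 0 < b)
  rw [mul_comm, Real.exp_nat_mul, Real.exp_log h2]

end size

/-! ### The data of a sequence of exceptions -/

/-- a sequence of exceptions, with the limits of the valuations along the ultrafilter -/
structure Dat (b : ℕ) (a c : ℝ) (ε : ℝ) where
  hb : 2 ≤ b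
  ia : Irrational a
  ic : Irrational c
  aa : IsAlgebraic ℚ a
  ac : IsAlgebraic ℚ c
  hε : 0 < ε
  mm : ℕ → ℕ
  hmm : ∀ t, t ≤ mm t
  m : ℕ
  B : Base m
  e : Fin m → ℕ
  he : ∀ v, (B.P v) ^ (e v) ∣ b
  hlog : ∑ v, (e v : ℝ) * Real.log (B.P v) = Real.log b
  δ : Fin m → ℝ
  hδ : 0 < ∑ v, δ v
  hq : ∀ v, ∀ η : ℝ, 0 < η → ∀ᶠ t in (UU : Filter ℕ), ∃ k : ℕ,
      (B.P v : ℤ) ^ k ∣ (⌊a * (b : ℝ) ^ (mm t)⌋ * ⌊c * (b : ℝ) ^ (mm t)⌋ + 1) ∧
        (δ v - η) * mm t ≤ k * Real.log (B.P v)

theorem exists_dat {b : ℕ} (hb : 2 ≤ b) {a c : ℝ} (ia : Irrational a) (ic : Irrational c)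
    (aa : IsAlgebraic ℚ a) (ac : IsAlgebraic ℚ c) {ε : ℝ} (hε : 0 < ε)
    (h : ∀ M : ℕ, ∃ m ≥ M, (b : ℝ) ^ (ε * m) ≤
      (Int.gcd (⌊a * (b : ℝ) ^ m⌋ * ⌊c * (b : ℝ) ^ m⌋ + 1) ((b : ℤ) ^ m) : ℝ)) :
    Nonempty (Dat b a c ε) := by
  classical
  obtain ⟨m, B, hprime, hfac⟩ := exists_base b hb
  choose mm hmm hbad using h
  have hmm' : ∀ t, t ≤ mm t := hmm
  set g : ℕ → ℕ := fun t => Int.gcd (⌊a * (b : ℝ) ^ (mm t)⌋ * ⌊c * (b : ℝ) ^ (mm t)⌋ + 1)
    ((b : ℤ) ^ (mm t)) with hg
  have hgd : ∀ t, g t ∣ b ^ mm t := by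
    intro t
    have := Int.gcd_dvd_right (⌊a * (b : ℝ) ^ (mm t)⌋ * ⌊c * (b : ℝ) ^ (mm t)⌋ + 1)
      ((b : ℤ) ^ (mm t))
    have h2 : ((g t : ℕ) : ℤ) ∣ ((b ^ mm t : ℕ) : ℤ) := by
      push_cast
      exact this
    exact_mod_cast h2
  have hgq : ∀ t, ((g t : ℕ) : ℤ) ∣
      (⌊a * (b : ℝ) ^ (mm t)⌋ * ⌊c * (b : ℝ) ^ (mm t)⌋ + 1) := fun t => Int.gcd_dvd_left _ _
  have hb0 : b ≠ 0 := by omega
  have hg0 : ∀ t, g t ≠ 0 := by
    intro t h0
    have := hgd t
    rw [h0, zero_dvd_iff] at this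
    exact pow_ne_zero _ hb0 this
  have hlogP : ∀ v, 0 ≤ Real.log (B.P v) := fun v => (B.log_pos v).le
  have hfle : ∀ t v, (g t).factorization (B.P v) ≤ mm t * b.factorization (B.P v) := by
    intro t v
    have h1 := (Nat.factorization_le_iff_dvd (hg0 t) (pow_ne_zero _ hb0)).2 (hgd t)
    have h2 := h1 (B.P v)
    rwa [Nat.factorization_pow] at h2
  -- the limits
  have hlim : ∀ v, ∃ δ : ℝ, Tendsto (fun t => ((g t).factorization (B.P v) : ℝ) *
      Real.log (B.P v) / mm t) (UU : Filter ℕ) (𝓝 δ) := by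
    intro v
    have hK : IsCompact (Set.Icc (0 : ℝ) (b.factorization (B.P v) * Real.log (B.P v))) :=
      isCompact_Icc
    have h1 : ∀ t, ((g t).factorization (B.P v) : ℝ) * Real.log (B.P v) / mm t ∈
        Set.Icc (0 : ℝ) (b.factorization (B.P v) * Real.log (B.P v)) := by
      intro t
      constructor
      · have := hlogP v
        positivity
      · rcases Nat.eq_zero_or_pos (mm t) with h0 | h0
        · rw [h0]
          simp only [Nat.cast_zero, div_zero]
          have := hlogP v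
          positivity
        · rw [div_le_iff₀ (by exact_mod_cast h0)]
          have h2 : ((g t).factorization (B.P v) : ℝ) ≤ mm t * b.factorization (B.P v) := by
            exact_mod_cast hfle t v
          have := hlogP v
          calc ((g t).factorization (B.P v) : ℝ) * Real.log (B.P v)
              ≤ (mm t * b.factorization (B.P v)) * Real.log (B.P v) := by gcongr
            _ = b.factorization (B.P v) * Real.log (B.P v) * mm t := by ring
    obtain ⟨δ, _, hδ⟩ := hK.ultrafilter_le_nhds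
      (UU.map fun t => ((g t).factorization (B.P v) : ℝ) * Real.log (B.P v) / mm t) (by
        rw [Filter.le_principal_iff, Ultrafilter.coe_map, Filter.mem_map]
        exact Filter.Eventually.of_forall h1)
    exact ⟨δ, hδ⟩
  choose δ hδ using hlim
  have hmmpos : ∀ᶠ t in (UU : Filter ℕ), 0 < mm t := by
    apply ev_of_atTop
    filter_upwards [eventually_ge_atTop 1] with t ht
    have := hmm' t
    omega
  have hlogb : 0 < Real.log b := Real.log_pos (by exact_mod_cast (by omega : 1 < b))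
  have hloggt : ∀ t, ∑ v, ((g t).factorization (B.P v) : ℝ) * Real.log (B.P v)
      = Real.log (g t) := by
    intro t
    conv_rhs => rw [hfac (g t) (mm t) (hgd t) (hg0 t)]
    rw [Nat.cast_prod, Real.log_prod]
    · refine Finset.sum_congr rfl fun v _ => ?_
      rw [Nat.cast_pow, Real.log_pow]
    · intro v _
      have := B.pos v
      positivity
  have hsum : Tendsto (fun t => Real.log (g t) / mm t) (UU : Filter ℕ) (𝓝 (∑ v, δ v)) := by
    have h1 := tendsto_finsetSum Finset.univ (fun v _ => hδ v)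
    refine h1.congr fun t => ?_
    rw [← Finset.sum_div, hloggt]
  have hge : ε * Real.log b ≤ ∑ v, δ v := by
    refine ge_of_tendsto hsum ?_
    filter_upwards [hmmpos] with t ht
    rw [le_div_iff₀ (by exact_mod_cast ht)]
    have h1 := hbad t
    have h2 := Real.log_le_log (by positivity) h1
    rw [Real.log_rpow (by exact_mod_cast (by omega : 0 < b))] at h2
    have h3 : ε * Real.log b * mm t = ε * mm t * Real.log b := by ring
    rw [h3]
    exact h2
  refine ⟨⟨hb, ia, ic, aa, ac, hε, mm, hmm', m, B, fun v => b.factorization (B.P v), ?_, ?_,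
    δ, ?_, ?_⟩⟩
  · intro v
    exact Nat.ordProj_dvd b (B.P v)
  · have h1 := hfac b 1 (by rw [pow_one]) hb0
    conv_rhs => rw [h1]
    rw [Nat.cast_prod, Real.log_prod]
    · refine Finset.sum_congr rfl fun v _ => ?_
      rw [Nat.cast_pow, Real.log_pow]
    · intro v _
      have := B.pos v
      positivity
  · have : 0 < ε * Real.log b := by positivity
    linarith
  · intro v η hη
    have h1 := (hδ v).eventually (lt_mem_nhds (show δ v - η < δ v by linarith))
    filter_upwards [h1, hmmpos] with t ht ht0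
    refine ⟨(g t).factorization (B.P v), ?_, ?_⟩
    · have h2 : (B.P v) ^ ((g t).factorization (B.P v)) ∣ g t := Nat.ordProj_dvd _ _
      have h3 : ((B.P v : ℤ)) ^ ((g t).factorization (B.P v)) ∣ ((g t : ℕ) : ℤ) := by
        exact_mod_cast h2
      exact h3.trans (hgq t)
    · rw [lt_div_iff₀ (by exact_mod_cast ht0)] at ht
      exact ht.le

/-! ### The four applications of the subspace theorem -/

namespace Dat

variable {b : ℕ} {a c ε : ℝ} (D : Dat b a c ε)

/-- the power `b ^ m` -/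
noncomputable def N (t : ℕ) : ℝ := (b : ℝ) ^ D.mm t

/-- the first integer part -/
noncomputable def U (t : ℕ) : ℤ := ⌊a * (b : ℝ) ^ (D.mm t)⌋

/-- the second integer part -/
noncomputable def V (t : ℕ) : ℤ := ⌊c * (b : ℝ) ^ (D.mm t)⌋

/-- the first fractional part -/
noncomputable def x (t : ℕ) : ℝ := a * D.N t - D.U t

/-- the second fractional part -/
noncomputable def y (t : ℕ) : ℝ := c * D.N t - D.V t

theorem x_nonneg (t : ℕ) : 0 ≤ D.x t := by
  have := Int.floor_le (a * (b : ℝ) ^ (D.mm t))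
  unfold x N U
  linarith

theorem x_lt (t : ℕ) : D.x t < 1 := by
  have := Int.lt_floor_add_one (a * (b : ℝ) ^ (D.mm t))
  unfold x N U
  linarith

theorem y_nonneg (t : ℕ) : 0 ≤ D.y t := by
  have := Int.floor_le (c * (b : ℝ) ^ (D.mm t))
  unfold y N V
  linarith

theorem y_lt (t : ℕ) : D.y t < 1 := by
  have := Int.lt_floor_add_one (c * (b : ℝ) ^ (D.mm t))
  unfold y N V
  linarith

theorem N_pos (t : ℕ) : 0 < D.N t := by
  have := D.hb
  unfold N
  positivity

theorem one_le_N (t : ℕ) : 1 ≤ D.N t := by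
  have := D.hb
  unfold N
  exact one_le_pow₀ (by exact_mod_cast (by omega : 1 ≤ b))

theorem coef {A C : ℝ} (h : ∀ᶠ t in (UU : Filter ℕ), |A * D.N t| ≤ C) : A = 0 :=
  coef_zero D.hb D.hmm h

/-- the field generated by the two numbers -/
noncomputable def F (_ : Dat b a c ε) : IntermediateField ℚ ℝ := IntermediateField.adjoin ℚ {a, c}

theorem finF : FiniteDimensional ℚ D.F := by
  unfold F
  refine IntermediateField.finiteDimensional_adjoin ?_
  intro z hz
  rcases hz with rfl | hz
  · exact D.aa.isIntegral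
  · rw [Set.mem_singleton_iff] at hz
    rw [hz]
    exact D.ac.isIntegral

theorem aF : a ∈ D.F := IntermediateField.subset_adjoin ℚ _ (by simp)
theorem cF : c ∈ D.F := IntermediateField.subset_adjoin ℚ _ (by simp)

theorem intF (k : ℤ) : (k : ℝ) ∈ D.F := intCast_mem D.F k

theorem hL : Tendsto (fun t => (D.mm t : ℝ)) atTop atTop :=
  tendsto_natCast_atTop_atTop.comp (tendsto_atTop_mono D.hmm tendsto_id)

/-- the place of a prime on a multiple of a power of `b ^ m` -/
theorem place_N (v : Fin D.m) (j : ℕ) (Z : ℕ → ℤ)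
    (hZ : ∀ t, ((b : ℤ) ^ D.mm t) ^ j ∣ Z t) (w : ℝ) (hw : w = j * (D.e v * Real.log (D.B.P v))) :
    ∀ η : ℝ, 0 < η → ∀ᶠ t in (UU : Filter ℕ), ∃ k : ℕ, (D.B.P v : ℤ) ^ k ∣ Z t ∧
      (w - η) * D.mm t ≤ k * Real.log (D.B.P v) := by
  intro η hη
  refine Filter.Eventually.of_forall fun t => ⟨D.e v * D.mm t * j, ?_, ?_⟩
  · refine dvd_trans ?_ (hZ t)
    rw [pow_mul, pow_mul]
    apply pow_dvd_pow_of_dvd
    apply pow_dvd_pow_of_dvd
    exact_mod_cast D.he v
  · rw [hw]
    push_cast
    have : (0 : ℝ) ≤ D.mm t := Nat.cast_nonneg _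
    nlinarith

/-- the real place -/
theorem place_R {z : ℕ → ℝ} (C : ℝ) (s : ℤ) (w : ℝ) (hw : w = -(s * Real.log b))
    (h : ∀ᶠ t in (UU : Filter ℕ), |z t| ≤ C * (D.N t) ^ s) :
    ∀ η : ℝ, 0 < η → ∀ᶠ t in (UU : Filter ℕ), |z t| ≤ Real.exp (-(w - η) * D.mm t) := by
  rw [hw]
  apply size_bound D.hmm (C := C) (s := (s : ℝ))
  refine h.mono fun t ht => ht.trans (le_of_eq ?_)
  congr 1
  unfold N
  have h2 : (0 : ℝ) < b := by exact_mod_cast (by have := D.hb; omega : 0 < b)
  rw [← Real.rpow_natCast, ← Real.rpow_intCast, ← Real.rpow_mul h2.le, Real.rpow_def_of_pos h2]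
  congr 1
  ring

/-- the integer `U V + 1` -/
noncomputable def q (t : ℕ) : ℤ := D.U t * D.V t + 1

/-- the power `b ^ m` as an integer -/
def Ni (t : ℕ) : ℤ := (b : ℤ) ^ D.mm t

theorem Ni_cast (t : ℕ) : ((D.Ni t : ℤ) : ℝ) = D.N t := by
  unfold Ni N
  push_cast
  rfl

theorem q_cast (t : ℕ) : ((D.q t : ℤ) : ℝ) =
    (a * D.N t - D.x t) * (c * D.N t - D.y t) + 1 := by
  unfold q x y
  push_cast
  ring

theorem U_cast (t : ℕ) : ((D.U t : ℤ) : ℝ) = a * D.N t - D.x t := by
  unfold x
  ring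

theorem V_cast (t : ℕ) : ((D.V t : ℤ) : ℝ) = c * D.N t - D.y t := by
  unfold y
  ring

theorem xabs (t : ℕ) : |D.x t| ≤ 1 := by
  rw [abs_of_nonneg (D.x_nonneg t)]
  exact (D.x_lt t).le

theorem yabs (t : ℕ) : |D.y t| ≤ 1 := by
  rw [abs_of_nonneg (D.y_nonneg t)]
  exact (D.y_lt t).le

theorem xyabs (t : ℕ) : |D.x t * D.y t| ≤ 1 := by
  rw [abs_mul]
  have := D.xabs t
  have := D.yabs t
  have := abs_nonneg (D.x t)
  have := abs_nonneg (D.y t)
  nlinarith

theorem sum_five (f : Fin 5 → ℝ) : ∑ i, f i = f 0 + f 1 + f 2 + f 3 + f 4 := Fin.sum_univ_five f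

theorem app1 : ∃ A B : ℝ, A ∈ D.F ∧ B ∈ D.F ∧ (A ≠ 0 ∨ B ≠ 0) ∧ ∃ C : ℝ,
    ∀ᶠ t in (UU : Filter ℕ), |A * D.x t + B * D.y t| ≤ C * (D.N t) ^ (-1 : ℤ) := by
  have := D.finF
  have hc2 : c ∈ D.F := D.cF
  have ha2 : a ∈ D.F := D.aF
  obtain ⟨k, hk0, hk⟩ := sub_app D.B (fun t => (D.mm t : ℝ)) D.hL D.F 5
    ![D.q, fun t => D.U t * D.Ni t, fun t => D.V t * D.Ni t, fun t => D.Ni t ^ 2, fun _ => 1]
    ![![1, -c, -a, a * c, -1], ![0, 1, 0, -a, 0], ![0, 0, 1, -c, 0], ![0, 0, 0, 1, 0],
      ![0, 0, 0, 0, 1]]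
    (by
      intro i j
      have h1 := one_mem D.F
      have h0 := zero_mem D.F
      fin_cases i <;> fin_cases j <;>
        first
        | exact h1 | exact h0 | exact neg_mem ha2 | exact neg_mem hc2 | exact mul_mem ha2 hc2
        | exact neg_mem h1)
    (by
      intro f hf
      have h0 := hf 0
      have h1 := hf 1
      have h2 := hf 2
      have h3 := hf 3
      have h4 := hf 4
      simp [Fin.sum_univ_five] at h0 h1 h2 h3 h4
      have e0 : f 0 = 0 := h0
      have e1 : f 1 = 0 := by rw [e0] at h1; linarith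
      have e2 : f 2 = 0 := by rw [e0] at h2; linarith
      have e3 : f 3 = 0 := by rw [e0, e1, e2] at h3; linarith
      have e4 : f 4 = 0 := by rw [e0] at h4; linarith
      intro i
      fin_cases i
      · exact e0
      · exact e1
      · exact e2
      · exact e3
      · exact e4)
    (fun v => ![D.δ v, D.e v * Real.log (D.B.P v), D.e v * Real.log (D.B.P v),
      2 * (D.e v * Real.log (D.B.P v)), 0])
    ![0, -Real.log b, -Real.log b, -(2 * Real.log b), 0]
    (by
      intro v i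
      fin_cases i
      · exact D.hq v
      · exact D.place_N v 1 _ (fun t => by
          rw [pow_one]; exact dvd_mul_left _ _) _ (by simp)
      · exact D.place_N v 1 _ (fun t => by
          rw [pow_one]; exact dvd_mul_left _ _) _ (by simp)
      · exact D.place_N v 2 _ (fun t => dvd_refl _) _ (by simp)
      · exact D.place_N v 0 _ (fun t => by simp) _ (by simp))
    (by
      intro i
      fin_cases i
      · refine D.place_R 1 0 _ (by simp) (Filter.Eventually.of_forall fun t => ?_)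
        have : ∑ j, (![1, -c, -a, a * c, -1] : Fin 5 → ℝ) j * (((![D.q, fun t => D.U t * D.Ni t,
            fun t => D.V t * D.Ni t, fun t => D.Ni t ^ 2, fun _ => 1] : Fin 5 → ℕ → ℤ) j t : ℤ) : ℝ)
            = D.x t * D.y t := by
          rw [Fin.sum_univ_five]
          simp
          rw [D.q_cast, D.U_cast, D.V_cast, D.Ni_cast]
          ring
        change |∑ j, (![1, -c, -a, a * c, -1] : Fin 5 → ℝ) j * (((![D.q, fun t => D.U t * D.Ni t,
            fun t => D.V t * D.Ni t, fun t => D.Ni t ^ 2, fun _ => 1] : Fin 5 → ℕ → ℤ) j t : ℤ) : ℝ)|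
            ≤ _
        rw [this]
        simpa using D.xyabs t
      · refine D.place_R 1 1 _ (by simp) (Filter.Eventually.of_forall fun t => ?_)
        have : ∑ j, (![0, 1, 0, -a, 0] : Fin 5 → ℝ) j * (((![D.q, fun t => D.U t * D.Ni t,
            fun t => D.V t * D.Ni t, fun t => D.Ni t ^ 2, fun _ => 1] : Fin 5 → ℕ → ℤ) j t : ℤ) : ℝ)
            = -D.x t * D.N t := by
          rw [Fin.sum_univ_five]
          simp
          rw [D.U_cast, D.Ni_cast]
          ring
        change |∑ j, (![0, 1, 0, -a, 0] : Fin 5 → ℝ) j * (((![D.q, fun t => D.U t * D.Ni t,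
            fun t => D.V t * D.Ni t, fun t => D.Ni t ^ 2, fun _ => 1] : Fin 5 → ℕ → ℤ) j t : ℤ) : ℝ)|
            ≤ _
        rw [this, abs_mul, abs_neg, abs_of_pos (D.N_pos t)]
        have h1 := D.xabs t
        have h2 := D.N_pos t
        rw [zpow_one]
        nlinarith
      · refine D.place_R 1 1 _ (by simp) (Filter.Eventually.of_forall fun t => ?_)
        have : ∑ j, (![0, 0, 1, -c, 0] : Fin 5 → ℝ) j * (((![D.q, fun t => D.U t * D.Ni t,
            fun t => D.V t * D.Ni t, fun t => D.Ni t ^ 2, fun _ => 1] : Fin 5 → ℕ → ℤ) j t : ℤ) : ℝ)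
            = -D.y t * D.N t := by
          rw [Fin.sum_univ_five]
          simp
          rw [D.V_cast, D.Ni_cast]
          ring
        change |∑ j, (![0, 0, 1, -c, 0] : Fin 5 → ℝ) j * (((![D.q, fun t => D.U t * D.Ni t,
            fun t => D.V t * D.Ni t, fun t => D.Ni t ^ 2, fun _ => 1] : Fin 5 → ℕ → ℤ) j t : ℤ) : ℝ)|
            ≤ _
        rw [this, abs_mul, abs_neg, abs_of_pos (D.N_pos t)]
        have h1 := D.yabs t
        have h2 := D.N_pos t
        rw [zpow_one]
        nlinarith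
      · refine D.place_R 1 2 _ (by simp) (Filter.Eventually.of_forall fun t => ?_)
        have : ∑ j, (![0, 0, 0, 1, 0] : Fin 5 → ℝ) j * (((![D.q, fun t => D.U t * D.Ni t,
            fun t => D.V t * D.Ni t, fun t => D.Ni t ^ 2, fun _ => 1] : Fin 5 → ℕ → ℤ) j t : ℤ) : ℝ)
            = D.N t ^ 2 := by
          rw [Fin.sum_univ_five]
          simp
          rw [D.Ni_cast]
        change |∑ j, (![0, 0, 0, 1, 0] : Fin 5 → ℝ) j * (((![D.q, fun t => D.U t * D.Ni t,
            fun t => D.V t * D.Ni t, fun t => D.Ni t ^ 2, fun _ => 1] : Fin 5 → ℕ → ℤ) j t : ℤ) : ℝ)|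
            ≤ _
        rw [this, abs_of_nonneg (by positivity)]
        rw [one_mul]
        exact_mod_cast le_refl _
      · refine D.place_R 1 0 _ (by simp) (Filter.Eventually.of_forall fun t => ?_)
        change |∑ j, (![0, 0, 0, 0, 1] : Fin 5 → ℝ) j * (((![D.q, fun t => D.U t * D.Ni t,
            fun t => D.V t * D.Ni t, fun t => D.Ni t ^ 2, fun _ => 1] : Fin 5 → ℕ → ℤ) j t : ℤ) : ℝ)|
            ≤ _
        rw [Fin.sum_univ_five]
        simp)
    (by
      simp only [Fin.sum_univ_five]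
      simp
      rw [Finset.sum_add_distrib, Finset.sum_add_distrib, Finset.sum_add_distrib,
        ← Finset.mul_sum, D.hlog]
      have := D.hδ
      linarith)
  have hrel : ∀ᶠ t in (UU : Filter ℕ), (k 0 : ℝ) * ((a * D.N t - D.x t) * (c * D.N t - D.y t) + 1)
      + k 1 * ((a * D.N t - D.x t) * D.N t) + k 2 * ((c * D.N t - D.y t) * D.N t)
      + k 3 * D.N t ^ 2 + k 4 = 0 := by
    filter_upwards [hk] with t ht
    rw [Fin.sum_univ_five] at ht
    simp at ht
    have h1 := congrArg (fun z : ℤ => (z : ℝ)) ht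
    simp only [Int.cast_add, Int.cast_mul, Int.cast_pow, Int.cast_zero] at h1
    rw [D.q_cast, D.U_cast, D.V_cast, D.Ni_cast] at h1
    linarith
  set A : ℝ := k 0 * c + k 1 with hA
  set B : ℝ := k 0 * a + k 2 with hB
  have hK : (k 0 : ℝ) * a * c + k 1 * a + k 2 * c + k 3 = 0 := by
    apply D.coef (C := |A| + |B| + 2 * |(k 0 : ℝ)| + |(k 4 : ℝ)|)
    filter_upwards [hrel] with t ht
    have hN := D.N_pos t
    have hN1 := D.one_le_N t
    have hx := D.xabs t
    have hy := D.yabs t
    have hxy := D.xyabs t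
    have e1 : (((k 0 : ℝ) * a * c + k 1 * a + k 2 * c + k 3) * D.N t) * D.N t
        = A * D.x t * D.N t + B * D.y t * D.N t - k 0 * (D.x t * D.y t) - k 0 - k 4 := by
      rw [hA, hB]
      linear_combination ht
    have e2 : |((k 0 : ℝ) * a * c + k 1 * a + k 2 * c + k 3) * D.N t| * D.N t
        ≤ (|A| + |B| + 2 * |(k 0 : ℝ)| + |(k 4 : ℝ)|) * D.N t := by
      calc |((k 0 : ℝ) * a * c + k 1 * a + k 2 * c + k 3) * D.N t| * D.N t
          = |A * D.x t * D.N t + B * D.y t * D.N t - k 0 * (D.x t * D.y t) - k 0 - k 4| := by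
            rw [← e1, abs_mul (_ * D.N t), abs_of_pos hN]
        _ ≤ |A * D.x t * D.N t| + |B * D.y t * D.N t| + |k 0 * (D.x t * D.y t)| + |(k 0 : ℝ)|
              + |(k 4 : ℝ)| := by
            refine (abs_sub _ _).trans ?_
            refine add_le_add ((abs_sub _ _).trans ?_) le_rfl
            refine add_le_add ((abs_sub _ _).trans ?_) le_rfl
            exact add_le_add (abs_add_le _ _) le_rfl
        _ ≤ |A| * D.N t + |B| * D.N t + |(k 0 : ℝ)| * D.N t + |(k 0 : ℝ)| * D.N t
              + |(k 4 : ℝ)| * D.N t := by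
            have hA0 := abs_nonneg A
            have hB0 := abs_nonneg B
            have hk0 := abs_nonneg (k 0 : ℝ)
            have hk4 := abs_nonneg (k 4 : ℝ)
            have i1 : |A * D.x t * D.N t| ≤ |A| * D.N t := by
              rw [abs_mul, abs_mul, abs_of_pos hN]
              have : |A| * |D.x t| ≤ |A| := by nlinarith
              nlinarith
            have i2 : |B * D.y t * D.N t| ≤ |B| * D.N t := by
              rw [abs_mul, abs_mul, abs_of_pos hN]
              have : |B| * |D.y t| ≤ |B| := by nlinarith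
              nlinarith
            have i3 : |(k 0 : ℝ) * (D.x t * D.y t)| ≤ |(k 0 : ℝ)| * D.N t := by
              rw [abs_mul]
              have : |(k 0 : ℝ)| * |D.x t * D.y t| ≤ |(k 0 : ℝ)| := by nlinarith
              nlinarith
            have i4 : |(k 0 : ℝ)| ≤ |(k 0 : ℝ)| * D.N t := by nlinarith
            have i5 : |(k 4 : ℝ)| ≤ |(k 4 : ℝ)| * D.N t := by nlinarith
            linarith
        _ = (|A| + |B| + 2 * |(k 0 : ℝ)| + |(k 4 : ℝ)|) * D.N t := by ring
    exact le_of_mul_le_mul_right e2 hN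
  have hAF : A ∈ D.F := add_mem (mul_mem (D.intF _) hc2) (D.intF _)
  have hBF : B ∈ D.F := add_mem (mul_mem (D.intF _) ha2) (D.intF _)
  refine ⟨A, B, hAF, hBF, ?_, 2 * |(k 0 : ℝ)| + |(k 4 : ℝ)|, ?_⟩
  · by_contra hcon
    push Not at hcon
    obtain ⟨hA0, hB0⟩ := hcon
    have z0 : k 0 = 0 := by
      by_contra hne
      have hne' : (k 0 : ℝ) ≠ 0 := by exact_mod_cast hne
      apply D.ic
      refine ⟨-(k 1 : ℚ) / k 0, ?_⟩
      push_cast
      rw [hA] at hA0
      field_simp
      linarith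
    have z1 : k 1 = 0 := by
      rw [hA, z0] at hA0
      simp at hA0
      exact hA0
    have z2 : k 2 = 0 := by
      rw [hB, z0] at hB0
      simp at hB0
      exact hB0
    have z3 : k 3 = 0 := by
      rw [z0, z1, z2] at hK
      simp at hK
      exact hK
    have z4 : k 4 = 0 := by
      obtain ⟨t, ht⟩ := hrel.exists
      rw [z0, z1, z2, z3] at ht
      simp at ht
      exact ht
    apply hk0
    funext i
    fin_cases i
    · exact z0
    · exact z1
    · exact z2
    · exact z3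
    · exact z4
  · filter_upwards [hrel] with t ht
    have hN := D.N_pos t
    have hxy := D.xyabs t
    have e1 : (A * D.x t + B * D.y t) * D.N t = k 0 * (D.x t * D.y t) + k 0 + k 4 := by
      rw [hA, hB]
      linear_combination D.N t ^ 2 * hK - ht
    rw [zpow_neg, zpow_one, ← div_eq_mul_inv, le_div_iff₀ hN]
    calc |A * D.x t + B * D.y t| * D.N t = |k 0 * (D.x t * D.y t) + k 0 + k 4| := by
          rw [← e1, abs_mul, abs_of_pos hN]
      _ ≤ |k 0 * (D.x t * D.y t)| + |(k 0 : ℝ)| + |(k 4 : ℝ)| := by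
          refine (abs_add_le _ _).trans ?_
          exact add_le_add (abs_add_le _ _) le_rfl
      _ ≤ |(k 0 : ℝ)| + |(k 0 : ℝ)| + |(k 4 : ℝ)| := by
          have : |(k 0 : ℝ) * (D.x t * D.y t)| ≤ |(k 0 : ℝ)| := by
            rw [abs_mul]
            have := abs_nonneg (k 0 : ℝ)
            nlinarith
          linarith
      _ = 2 * |(k 0 : ℝ)| + |(k 4 : ℝ)| := by ring

theorem app2 : ∃ e1 e2 e3 : ℤ, e1 ≠ 0 ∧ e2 ≠ 0 ∧
    ∀ᶠ t in (UU : Filter ℕ), e1 * D.U t + e2 * D.V t + e3 * D.Ni t = 0 := by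
  have := D.finF
  have hc2 : c ∈ D.F := D.cF
  have ha2 : a ∈ D.F := D.aF
  obtain ⟨A, B, hAF, hBF, hAB, C, hC⟩ := D.app1
  have hAB' : A ^ 2 + B ^ 2 ≠ 0 := by
    intro h
    rcases hAB with h1 | h1
    · have : 0 < A ^ 2 := by positivity
      nlinarith [sq_nonneg B]
    · have : 0 < B ^ 2 := by positivity
      nlinarith [sq_nonneg A]
  obtain ⟨k, hk0, hk⟩ := sub_app D.B (fun t => (D.mm t : ℝ)) D.hL D.F 3
    ![D.U, D.V, D.Ni]
    ![![A, B, -(A * a + B * c)], ![-B, A, B * a - A * c], ![0, 0, 1]]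
    (by
      intro i j
      have h1 := one_mem D.F
      have h0 := zero_mem D.F
      fin_cases i <;> fin_cases j <;>
        first
        | exact h1 | exact h0 | exact hAF | exact hBF | exact neg_mem hBF
        | exact neg_mem (add_mem (mul_mem hAF ha2) (mul_mem hBF hc2))
        | exact sub_mem (mul_mem hBF ha2) (mul_mem hAF hc2))
    (by
      intro f hf
      have h0 := hf 0
      have h1 := hf 1
      have h2 := hf 2
      simp [Fin.sum_univ_three] at h0 h1 h2
      have e0 : f 0 = 0 := by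
        have : f 0 * (A ^ 2 + B ^ 2) = 0 := by linear_combination A * h0 + B * h1
        exact (mul_eq_zero.1 this).resolve_right hAB'
      have e1 : f 1 = 0 := by
        have : f 1 * (A ^ 2 + B ^ 2) = 0 := by linear_combination -B * h0 + A * h1
        exact (mul_eq_zero.1 this).resolve_right hAB'
      have e2 : f 2 = 0 := by rw [e0, e1] at h2; linarith
      intro i
      fin_cases i
      · exact e0
      · exact e1
      · exact e2)
    (fun v => ![0, 0, D.e v * Real.log (D.B.P v)])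
    ![Real.log b, 0, -Real.log b]
    (by
      intro v i
      fin_cases i
      · exact D.place_N v 0 _ (fun t => by simp) _ (by simp)
      · exact D.place_N v 0 _ (fun t => by simp) _ (by simp)
      · exact D.place_N v 1 _ (fun t => by rw [pow_one]; exact dvd_refl _) _ (by simp))
    (by
      intro i
      fin_cases i
      · refine D.place_R C (-1) _ (by simp) ?_
        filter_upwards [hC] with t ht
        have : ∑ j, (![A, B, -(A * a + B * c)] : Fin 3 → ℝ) j *
            (((![D.U, D.V, D.Ni] : Fin 3 → ℕ → ℤ) j t : ℤ) : ℝ)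
            = -(A * D.x t + B * D.y t) := by
          rw [Fin.sum_univ_three]
          simp
          rw [D.U_cast, D.V_cast, D.Ni_cast]
          ring
        change |∑ j, (![A, B, -(A * a + B * c)] : Fin 3 → ℝ) j *
            (((![D.U, D.V, D.Ni] : Fin 3 → ℕ → ℤ) j t : ℤ) : ℝ)| ≤ _
        rw [this, abs_neg]
        exact ht
      · refine D.place_R (|A| + |B|) 0 _ (by simp) (Filter.Eventually.of_forall fun t => ?_)
        have : ∑ j, (![-B, A, B * a - A * c] : Fin 3 → ℝ) j *
            (((![D.U, D.V, D.Ni] : Fin 3 → ℕ → ℤ) j t : ℤ) : ℝ)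
            = B * D.x t - A * D.y t := by
          rw [Fin.sum_univ_three]
          simp
          rw [D.U_cast, D.V_cast, D.Ni_cast]
          ring
        change |∑ j, (![-B, A, B * a - A * c] : Fin 3 → ℝ) j *
            (((![D.U, D.V, D.Ni] : Fin 3 → ℕ → ℤ) j t : ℤ) : ℝ)| ≤ _
        rw [this, zpow_zero, mul_one]
        refine (abs_sub _ _).trans ?_
        rw [abs_mul, abs_mul]
        have := D.xabs t
        have := D.yabs t
        have := abs_nonneg A
        have := abs_nonneg B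
        nlinarith
      · refine D.place_R 1 1 _ (by simp) (Filter.Eventually.of_forall fun t => ?_)
        have : ∑ j, (![0, 0, 1] : Fin 3 → ℝ) j *
            (((![D.U, D.V, D.Ni] : Fin 3 → ℕ → ℤ) j t : ℤ) : ℝ) = D.N t := by
          rw [Fin.sum_univ_three]
          simp
          rw [D.Ni_cast]
        change |∑ j, (![0, 0, 1] : Fin 3 → ℝ) j *
            (((![D.U, D.V, D.Ni] : Fin 3 → ℕ → ℤ) j t : ℤ) : ℝ)| ≤ _
        rw [this, abs_of_pos (D.N_pos t), zpow_one, one_mul])
    (by
      simp only [Fin.sum_univ_three]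
      simp
      rw [D.hlog]
      exact Real.log_pos (by exact_mod_cast D.hb))
  have hrel : ∀ᶠ t in (UU : Filter ℕ), k 0 * D.U t + k 1 * D.V t + k 2 * D.Ni t = 0 := by
    filter_upwards [hk] with t ht
    rw [Fin.sum_univ_three] at ht
    simpa using ht
  have hrelR : ∀ᶠ t in (UU : Filter ℕ), (k 0 : ℝ) * (a * D.N t - D.x t)
      + k 1 * (c * D.N t - D.y t) + k 2 * D.N t = 0 := by
    filter_upwards [hrel] with t ht
    have h1 := congrArg (fun z : ℤ => (z : ℝ)) ht
    simp only [Int.cast_add, Int.cast_mul, Int.cast_zero] at h1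
    rw [D.U_cast, D.V_cast, D.Ni_cast] at h1
    linarith
  have hK : (k 0 : ℝ) * a + k 1 * c + k 2 = 0 := by
    apply D.coef (C := |(k 0 : ℝ)| + |(k 1 : ℝ)|)
    filter_upwards [hrelR] with t ht
    have e1 : ((k 0 : ℝ) * a + k 1 * c + k 2) * D.N t = k 0 * D.x t + k 1 * D.y t := by
      linear_combination ht
    rw [e1]
    refine (abs_add_le _ _).trans ?_
    rw [abs_mul, abs_mul]
    have := D.xabs t
    have := D.yabs t
    have := abs_nonneg (k 0 : ℝ)
    have := abs_nonneg (k 1 : ℝ)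
    nlinarith
  have n0 : k 0 ≠ 0 := by
    intro h0
    have h1 : k 1 = 0 := by
      by_contra hne
      have hne' : (k 1 : ℝ) ≠ 0 := by exact_mod_cast hne
      apply D.ic
      refine ⟨-(k 2 : ℚ) / k 1, ?_⟩
      push_cast
      rw [h0] at hK
      push_cast at hK
      field_simp
      linarith
    have h2 : k 2 = 0 := by
      rw [h0, h1] at hK
      simp at hK
      exact hK
    apply hk0
    funext i
    fin_cases i
    · exact h0
    · exact h1
    · exact h2
  have n1 : k 1 ≠ 0 := by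
    intro h0
    have h1 : k 0 = 0 := by
      by_contra hne
      have hne' : (k 0 : ℝ) ≠ 0 := by exact_mod_cast hne
      apply D.ia
      refine ⟨-(k 2 : ℚ) / k 0, ?_⟩
      push_cast
      rw [h0] at hK
      push_cast at hK
      field_simp
      linarith
    exact n0 h1
  exact ⟨k 0, k 1, k 2, n0, n1, hrel⟩

theorem app3 : ∃ C : ℝ, ∀ᶠ t in (UU : Filter ℕ), |D.x t| ≤ C * (D.N t) ^ (-1 : ℤ) := by
  have := D.finF
  have ha2 : a ∈ D.F := D.aF
  obtain ⟨e1, e2, e3, h10, h20, he⟩ := D.app2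
  have h10' : (e1 : ℝ) ≠ 0 := by exact_mod_cast h10
  have h20' : (e2 : ℝ) ≠ 0 := by exact_mod_cast h20
  have heR : ∀ᶠ t in (UU : Filter ℕ), (e2 : ℝ) * (D.q t : ℝ)
      = -e1 * (a * D.N t - D.x t) ^ 2 - e3 * (a * D.N t - D.x t) * D.N t + e2 := by
    filter_upwards [he] with t ht
    have h1 := congrArg (fun z : ℤ => (z : ℝ)) ht
    simp only [Int.cast_add, Int.cast_mul, Int.cast_zero] at h1
    rw [D.U_cast, D.V_cast, D.Ni_cast] at h1
    rw [D.q_cast]
    linear_combination (a * D.N t - D.x t) * h1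
  obtain ⟨k, hk0, hk⟩ := sub_app D.B (fun t => (D.mm t : ℝ)) D.hL D.F 4
    ![D.q, fun t => D.U t * D.Ni t, fun t => D.Ni t ^ 2, fun _ => 1]
    ![![e2, e3 + 2 * a * e1, -(e1 * a ^ 2), -e2], ![0, 1, -a, 0], ![0, 0, 1, 0], ![0, 0, 0, 1]]
    (by
      intro i j
      have h1 := one_mem D.F
      have h0 := zero_mem D.F
      have h2 : (2 : ℝ) ∈ D.F := by exact_mod_cast D.intF 2
      fin_cases i <;> fin_cases j <;>
        first
        | exact h1 | exact h0 | exact D.intF _ | exact neg_mem (D.intF _) | exact neg_mem ha2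
        | exact add_mem (D.intF _) (mul_mem (mul_mem h2 ha2) (D.intF _))
        | exact neg_mem (mul_mem (D.intF _) (pow_mem ha2 2)))
    (by
      intro f hf
      have h0 := hf 0
      have h1 := hf 1
      have h2 := hf 2
      have h3 := hf 3
      simp [Fin.sum_univ_four] at h0 h1 h2 h3
      have e0 : f 0 = 0 := by
        rcases h0 with h0 | h0
        · exact h0
        · exact absurd h0 h20
      have e1 : f 1 = 0 := by rw [e0] at h1; linarith
      have e2 : f 2 = 0 := by rw [e0, e1] at h2; linarith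
      have e3 : f 3 = 0 := by rw [e0] at h3; linarith
      intro i
      fin_cases i
      · exact e0
      · exact e1
      · exact e2
      · exact e3)
    (fun v => ![D.δ v, D.e v * Real.log (D.B.P v), 2 * (D.e v * Real.log (D.B.P v)), 0])
    ![0, -Real.log b, -(2 * Real.log b), 0]
    (by
      intro v i
      fin_cases i
      · exact D.hq v
      · exact D.place_N v 1 _ (fun t => by
          rw [pow_one]; exact dvd_mul_left _ _) _ (by simp)
      · exact D.place_N v 2 _ (fun t => dvd_refl _) _ (by simp)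
      · exact D.place_N v 0 _ (fun t => by simp) _ (by simp))
    (by
      intro i
      fin_cases i
      · refine D.place_R |(e1 : ℝ)| 0 _ (by simp) ?_
        filter_upwards [heR] with t ht
        have : ∑ j, (![e2, e3 + 2 * a * e1, -(e1 * a ^ 2), -e2] : Fin 4 → ℝ) j *
            (((![D.q, fun t => D.U t * D.Ni t, fun t => D.Ni t ^ 2, fun _ => 1]
              : Fin 4 → ℕ → ℤ) j t : ℤ) : ℝ)
            = -e1 * (D.x t) ^ 2 := by
          rw [Fin.sum_univ_four]
          simp
          rw [D.U_cast, D.Ni_cast]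
          linear_combination ht
        change |∑ j, (![e2, e3 + 2 * a * e1, -(e1 * a ^ 2), -e2] : Fin 4 → ℝ) j *
            (((![D.q, fun t => D.U t * D.Ni t, fun t => D.Ni t ^ 2, fun _ => 1]
              : Fin 4 → ℕ → ℤ) j t : ℤ) : ℝ)| ≤ _
        rw [this, zpow_zero, mul_one, abs_mul, abs_neg, abs_pow]
        have h1 := D.xabs t
        have h2 := abs_nonneg (D.x t)
        have h3 := abs_nonneg (e1 : ℝ)
        have h4 : |D.x t| ^ 2 ≤ 1 := by nlinarith
        nlinarith
      · refine D.place_R 1 1 _ (by simp) (Filter.Eventually.of_forall fun t => ?_)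
        have : ∑ j, (![0, 1, -a, 0] : Fin 4 → ℝ) j *
            (((![D.q, fun t => D.U t * D.Ni t, fun t => D.Ni t ^ 2, fun _ => 1]
              : Fin 4 → ℕ → ℤ) j t : ℤ) : ℝ)
            = -D.x t * D.N t := by
          rw [Fin.sum_univ_four]
          simp
          rw [D.U_cast, D.Ni_cast]
          ring
        change |∑ j, (![0, 1, -a, 0] : Fin 4 → ℝ) j *
            (((![D.q, fun t => D.U t * D.Ni t, fun t => D.Ni t ^ 2, fun _ => 1]
              : Fin 4 → ℕ → ℤ) j t : ℤ) : ℝ)| ≤ _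
        rw [this, abs_mul, abs_neg, abs_of_pos (D.N_pos t)]
        have h1 := D.xabs t
        have h2 := D.N_pos t
        rw [zpow_one]
        nlinarith
      · refine D.place_R 1 2 _ (by simp) (Filter.Eventually.of_forall fun t => ?_)
        have : ∑ j, (![0, 0, 1, 0] : Fin 4 → ℝ) j *
            (((![D.q, fun t => D.U t * D.Ni t, fun t => D.Ni t ^ 2, fun _ => 1]
              : Fin 4 → ℕ → ℤ) j t : ℤ) : ℝ)
            = D.N t ^ 2 := by
          rw [Fin.sum_univ_four]
          simp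
          rw [D.Ni_cast]
        change |∑ j, (![0, 0, 1, 0] : Fin 4 → ℝ) j *
            (((![D.q, fun t => D.U t * D.Ni t, fun t => D.Ni t ^ 2, fun _ => 1]
              : Fin 4 → ℕ → ℤ) j t : ℤ) : ℝ)| ≤ _
        rw [this, abs_of_nonneg (by positivity)]
        rw [one_mul]
        exact_mod_cast le_refl _
      · refine D.place_R 1 0 _ (by simp) (Filter.Eventually.of_forall fun t => ?_)
        change |∑ j, (![0, 0, 0, 1] : Fin 4 → ℝ) j *
            (((![D.q, fun t => D.U t * D.Ni t, fun t => D.Ni t ^ 2, fun _ => 1]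
              : Fin 4 → ℕ → ℤ) j t : ℤ) : ℝ)| ≤ _
        rw [Fin.sum_univ_four]
        simp)
    (by
      simp only [Fin.sum_univ_four]
      simp
      rw [Finset.sum_add_distrib, Finset.sum_add_distrib, ← Finset.mul_sum, D.hlog]
      have := D.hδ
      linarith)
  have hrel : ∀ᶠ t in (UU : Filter ℕ), (k 0 : ℝ) * D.q t
      + k 1 * ((a * D.N t - D.x t) * D.N t) + k 2 * D.N t ^ 2 + k 3 = 0 := by
    filter_upwards [hk] with t ht
    rw [Fin.sum_univ_four] at ht
    simp at ht
    have h1 := congrArg (fun z : ℤ => (z : ℝ)) ht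
    simp only [Int.cast_add, Int.cast_mul, Int.cast_pow, Int.cast_zero] at h1
    rw [D.U_cast, D.Ni_cast] at h1
    linarith
  set E : ℝ := 2 * k 0 * e1 * a + k 0 * e3 - e2 * k 1 with hE
  -- the relation in terms of the fractional part
  have hrel2 : ∀ᶠ t in (UU : Filter ℕ),
      (-(k 0 * e1 * a ^ 2) - k 0 * e3 * a + e2 * k 1 * a + e2 * k 2) * D.N t ^ 2
        + E * D.x t * D.N t = k 0 * e1 * D.x t ^ 2 - k 0 * e2 - e2 * k 3 := by
    filter_upwards [hrel, heR] with t h1 h2
    rw [hE]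
    linear_combination e2 * h1 - k 0 * h2
  have hK : (-((k 0 : ℝ) * e1 * a ^ 2) - k 0 * e3 * a + e2 * k 1 * a + e2 * k 2) = 0 := by
    apply D.coef (C := |E| + |(k 0 * e1 : ℝ)| + |(k 0 * e2 : ℝ)| + |(e2 * k 3 : ℝ)|)
    filter_upwards [hrel2] with t ht
    set K : ℝ := (-((k 0 : ℝ) * e1 * a ^ 2) - k 0 * e3 * a + e2 * k 1 * a + e2 * k 2) with hKdef
    have hN := D.N_pos t
    have hN1 := D.one_le_N t
    have hx := D.xabs t
    have hx0 := abs_nonneg (D.x t)
    have f1 : K * D.N t * D.N t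
        = k 0 * e1 * D.x t ^ 2 - k 0 * e2 - e2 * k 3 - E * D.x t * D.N t := by
      linear_combination ht
    have f2 : |K * D.N t| * D.N t
        ≤ (|E| + |(k 0 * e1 : ℝ)| + |(k 0 * e2 : ℝ)| + |(e2 * k 3 : ℝ)|) * D.N t := by
      calc |K * D.N t| * D.N t
          = |k 0 * e1 * D.x t ^ 2 - k 0 * e2 - e2 * k 3 - E * D.x t * D.N t| := by
            rw [← f1, abs_mul (_ * D.N t), abs_of_pos hN]
        _ ≤ |k 0 * e1 * D.x t ^ 2| + |(k 0 * e2 : ℝ)| + |(e2 * k 3 : ℝ)|
              + |E * D.x t * D.N t| := by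
            refine (abs_sub _ _).trans ?_
            refine add_le_add ((abs_sub _ _).trans ?_) le_rfl
            exact add_le_add (abs_sub _ _) le_rfl
        _ ≤ |(k 0 * e1 : ℝ)| * D.N t + |(k 0 * e2 : ℝ)| * D.N t + |(e2 * k 3 : ℝ)| * D.N t
              + |E| * D.N t := by
            have a1 := abs_nonneg (k 0 * e1 : ℝ)
            have a2 := abs_nonneg (k 0 * e2 : ℝ)
            have a3 := abs_nonneg (e2 * k 3 : ℝ)
            have a4 := abs_nonneg E
            have i1 : |k 0 * e1 * D.x t ^ 2| ≤ |(k 0 * e1 : ℝ)| * D.N t := by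
              rw [abs_mul, abs_pow]
              have h4 : |D.x t| ^ 2 ≤ 1 := by nlinarith
              have : |(k 0 * e1 : ℝ)| * |D.x t| ^ 2 ≤ |(k 0 * e1 : ℝ)| := by nlinarith
              nlinarith
            have i2 : |(k 0 * e2 : ℝ)| ≤ |(k 0 * e2 : ℝ)| * D.N t := by nlinarith
            have i3 : |(e2 * k 3 : ℝ)| ≤ |(e2 * k 3 : ℝ)| * D.N t := by nlinarith
            have i4 : |E * D.x t * D.N t| ≤ |E| * D.N t := by
              rw [abs_mul, abs_mul, abs_of_pos hN]
              have : |E| * |D.x t| ≤ |E| := by nlinarith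
              nlinarith
            linarith
        _ = (|E| + |(k 0 * e1 : ℝ)| + |(k 0 * e2 : ℝ)| + |(e2 * k 3 : ℝ)|) * D.N t := by ring
    exact le_of_mul_le_mul_right f2 hN
  have hE0 : E ≠ 0 := by
    intro hE0
    have z0 : k 0 = 0 := by
      by_contra hne
      have hne' : (k 0 : ℝ) ≠ 0 := by exact_mod_cast hne
      apply D.ia
      refine ⟨((e2 * k 1 - k 0 * e3 : ℤ) : ℚ) / ((2 * k 0 * e1 : ℤ) : ℚ), ?_⟩
      push_cast
      rw [hE] at hE0
      field_simp
      linarith
    have z1 : k 1 = 0 := by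
      rw [hE, z0] at hE0
      simp at hE0
      rcases hE0 with h | h
      · exact absurd h h20
      · exact h
    have z2 : k 2 = 0 := by
      rw [z0, z1] at hK
      simp at hK
      rcases hK with h | h
      · exact absurd h h20
      · exact h
    have z3 : k 3 = 0 := by
      obtain ⟨t, ht⟩ := hrel.exists
      rw [z0, z1, z2] at ht
      simp at ht
      exact ht
    apply hk0
    funext i
    fin_cases i
    · exact z0
    · exact z1
    · exact z2
    · exact z3
  refine ⟨(|(k 0 * e1 : ℝ)| + |(k 0 * e2 : ℝ)| + |(e2 * k 3 : ℝ)|) / |E|, ?_⟩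
  filter_upwards [hrel2] with t ht
  have hN := D.N_pos t
  have hEp : 0 < |E| := abs_pos.2 hE0
  have hx := D.xabs t
  have hx0 := abs_nonneg (D.x t)
  have f1 : E * D.x t * D.N t = k 0 * e1 * D.x t ^ 2 - k 0 * e2 - e2 * k 3 := by
    rw [hK] at ht
    linarith
  rw [zpow_neg, zpow_one, ← div_eq_mul_inv, div_div, le_div_iff₀ (by positivity)]
  calc |D.x t| * (|E| * D.N t) = |E * D.x t * D.N t| := by
        rw [abs_mul, abs_mul, abs_of_pos hN]; ring
    _ = |k 0 * e1 * D.x t ^ 2 - k 0 * e2 - e2 * k 3| := by rw [f1]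
    _ ≤ |k 0 * e1 * D.x t ^ 2| + |(k 0 * e2 : ℝ)| + |(e2 * k 3 : ℝ)| := by
        refine (abs_sub _ _).trans ?_
        exact add_le_add (abs_sub _ _) le_rfl
    _ ≤ |(k 0 * e1 : ℝ)| + |(k 0 * e2 : ℝ)| + |(e2 * k 3 : ℝ)| := by
        have a1 := abs_nonneg (k 0 * e1 : ℝ)
        have i1 : |k 0 * e1 * D.x t ^ 2| ≤ |(k 0 * e1 : ℝ)| := by
          rw [abs_mul, abs_pow]
          have h4 : |D.x t| ^ 2 ≤ 1 := by nlinarith
          nlinarith
        linarith

include D in
theorem contra : False := by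
  have := D.finF
  have ha2 : a ∈ D.F := D.aF
  obtain ⟨C, hC⟩ := D.app3
  obtain ⟨k, hk0, hk⟩ := sub_app D.B (fun t => (D.mm t : ℝ)) D.hL D.F 2
    ![D.U, D.Ni] ![![1, -a], ![0, 1]]
    (by
      intro i j
      have h1 := one_mem D.F
      have h0 := zero_mem D.F
      fin_cases i <;> fin_cases j <;>
        first
        | exact h1 | exact h0 | exact neg_mem ha2)
    (by
      intro f hf
      have h0 := hf 0
      have h1 := hf 1
      simp [Fin.sum_univ_two] at h0 h1
      have e1 : f 1 = 0 := by rw [h0] at h1; linarith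
      intro i
      fin_cases i
      · exact h0
      · exact e1)
    (fun v => ![0, D.e v * Real.log (D.B.P v)])
    ![Real.log b, -Real.log b]
    (by
      intro v i
      fin_cases i
      · exact D.place_N v 0 _ (fun t => by simp) _ (by simp)
      · exact D.place_N v 1 _ (fun t => by rw [pow_one]; exact dvd_refl _) _ (by simp))
    (by
      intro i
      fin_cases i
      · refine D.place_R C (-1) _ (by simp) ?_
        filter_upwards [hC] with t ht
        have : ∑ j, (![1, -a] : Fin 2 → ℝ) j * (((![D.U, D.Ni] : Fin 2 → ℕ → ℤ) j t : ℤ) : ℝ)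
            = -D.x t := by
          rw [Fin.sum_univ_two]
          simp
          rw [D.U_cast, D.Ni_cast]
          ring
        change |∑ j, (![1, -a] : Fin 2 → ℝ) j *
            (((![D.U, D.Ni] : Fin 2 → ℕ → ℤ) j t : ℤ) : ℝ)| ≤ _
        rw [this, abs_neg]
        exact ht
      · refine D.place_R 1 1 _ (by simp) (Filter.Eventually.of_forall fun t => ?_)
        have : ∑ j, (![0, 1] : Fin 2 → ℝ) j * (((![D.U, D.Ni] : Fin 2 → ℕ → ℤ) j t : ℤ) : ℝ)
            = D.N t := by
          rw [Fin.sum_univ_two]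
          simp
          rw [D.Ni_cast]
        change |∑ j, (![0, 1] : Fin 2 → ℝ) j *
            (((![D.U, D.Ni] : Fin 2 → ℕ → ℤ) j t : ℤ) : ℝ)| ≤ _
        rw [this, abs_of_pos (D.N_pos t), zpow_one, one_mul])
    (by
      simp only [Fin.sum_univ_two]
      simp
      rw [D.hlog]
      exact Real.log_pos (by exact_mod_cast D.hb))
  have hrelR : ∀ᶠ t in (UU : Filter ℕ), (k 0 : ℝ) * (a * D.N t - D.x t) + k 1 * D.N t = 0 := by
    filter_upwards [hk] with t ht
    rw [Fin.sum_univ_two] at ht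
    simp at ht
    have h1 := congrArg (fun z : ℤ => (z : ℝ)) ht
    simp only [Int.cast_add, Int.cast_mul, Int.cast_zero] at h1
    rw [D.U_cast, D.Ni_cast] at h1
    linarith
  have hK : (k 0 : ℝ) * a + k 1 = 0 := by
    apply D.coef (C := |(k 0 : ℝ)|)
    filter_upwards [hrelR] with t ht
    have e1 : ((k 0 : ℝ) * a + k 1) * D.N t = k 0 * D.x t := by
      linear_combination ht
    rw [e1, abs_mul]
    have := D.xabs t
    have := abs_nonneg (k 0 : ℝ)
    nlinarith
  have z0 : k 0 = 0 := by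
    by_contra hne
    have hne' : (k 0 : ℝ) ≠ 0 := by exact_mod_cast hne
    apply D.ia
    refine ⟨-(k 1 : ℚ) / k 0, ?_⟩
    push_cast
    field_simp
    linarith
  have z1 : k 1 = 0 := by
    rw [z0] at hK
    simp at hK
    exact hK
  apply hk0
  funext i
  fin_cases i
  · exact z0
  · exact z1

end Dat

/-- the theorem for `k = 0` -/
theorem floor_gcd {b : ℕ} (hb : 2 ≤ b) {a c : ℝ} (ia : Irrational a) (ic : Irrational c)
    (aa : IsAlgebraic ℚ a) (ac : IsAlgebraic ℚ c) {ε : ℝ} (hε : 0 < ε) :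
    ∃ M : ℕ, ∀ m ≥ M, (Int.gcd (⌊a * (b : ℝ) ^ m⌋ * ⌊c * (b : ℝ) ^ m⌋ + 1) ((b : ℤ) ^ m) : ℝ)
      < (b : ℝ) ^ (ε * m) := by
  by_contra hcon
  push Not at hcon
  obtain ⟨D⟩ := exists_dat hb ia ic aa ac hε hcon
  exact D.contra

end Pool.Agent.Q4.FloorGcd
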