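import Mathlib

/-!
# Liouville's inequality for linear forms in powers of a real algebraic number
-/

set_option autoImplicit false

namespace Pool.Agent.Q4.Liou

open Finset Polynomial Module Filter IntermediateField

theorem irr_X_pow_sub_two {N : ℕ} (hN : 0 < N) : Irreducible (X ^ N - C 2 : ℚ[X]) := by
  have hm : (X ^ N - C 2 : ℤ[X]).Monic := monic_X_pow_sub_C 2 hN.ne'
  have h1 : Irreducible (X ^ N - C 2 : ℤ[X]) := by
    have hprime : (Ideal.span {(2 : ℤ)}).IsPrime := by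
      rw [Ideal.span_singleton_prime (by norm_num)]
      exact Int.prime_two
    have hdeg : (X ^ N - C 2 : ℤ[X]).natDegree = N := natDegree_X_pow_sub_C
    refine irreducible_of_eisenstein_criterion hprime ?_ ?_ ?_ ?_ hm.isPrimitive
    · rw [hm.leadingCoeff, Ideal.mem_span_singleton]
      norm_num
    · intro n hn
      rw [degree_eq_natDegree hm.ne_zero, hdeg] at hn
      have hn' : n < N := by exact_mod_cast hn
      rw [Ideal.mem_span_singleton, coeff_sub, coeff_X_pow, if_neg hn'.ne, coeff_C]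
      split_ifs <;> norm_num
    · rw [degree_eq_natDegree hm.ne_zero, hdeg]
      exact_mod_cast hN
    · rw [Ideal.span_singleton_pow, Ideal.mem_span_singleton, coeff_sub, coeff_X_pow,
        if_neg hN.ne, coeff_C_zero]
      norm_num
  have h2 := (hm.irreducible_iff_irreducible_map_fraction_map (K := ℚ)).1 h1
  have h3 : (X ^ N - C 2 : ℤ[X]).map (algebraMap ℤ ℚ) = (X ^ N - C 2 : ℚ[X]) := by
    rw [Polynomial.map_sub, Polynomial.map_pow, map_X, map_C]
    simp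
  rwa [h3] at h2

/-- **Liouville.** -/
theorem liouville_field (K : IntermediateField ℚ ℝ) [FiniteDimensional ℚ K] {m : ℕ}
    (y : Fin (m + 1) → ℝ) (hy : ∀ j, y j ∈ K) (hli : LinearIndependent ℚ y) :
    ∃ c : ℝ, 0 < c ∧ ∀ a : Fin (m + 1) → ℤ, a ≠ 0 → ∀ H : ℝ, 1 ≤ H → (∀ j, |(a j : ℝ)| ≤ H) →
      c ≤ H ^ (finrank ℚ K - 1) * |∑ j, (a j : ℝ) * y j| := by
  classical
  set z : Fin (m + 1) → K := fun j => ⟨y j, hy j⟩ with hz
  obtain ⟨D, hD0, hD⟩ := exists_integral_multiples ℤ ℚ (Finset.univ.image z)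
  have hDz : ∀ j, IsIntegral ℤ (D • z j) := fun j =>
    hD _ (Finset.mem_image_of_mem _ (Finset.mem_univ j))
  set S : ℝ := 1 + ∑ σ : K →ₐ[ℚ] ℂ, ∑ j, ‖σ (D • z j)‖ with hS
  have hS1 : 1 ≤ S := by
    have : 0 ≤ ∑ σ : K →ₐ[ℚ] ℂ, ∑ j, ‖σ (D • z j)‖ :=
      Finset.sum_nonneg fun σ _ => Finset.sum_nonneg fun j _ => norm_nonneg _
    linarith
  have hS0 : 0 < S := by linarith
  have hDR : (0 : ℝ) < |(D : ℝ)| := abs_pos.2 (by exact_mod_cast hD0)
  set σ₀ : K →ₐ[ℚ] ℂ := (Algebra.algHom ℚ ℝ ℂ).comp K.val with hσ₀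
  have hd : 1 ≤ finrank ℚ K := finrank_pos
  refine ⟨1 / (|(D : ℝ)| * S ^ (finrank ℚ K - 1)), by positivity, ?_⟩
  intro a ha H hH haH
  set β : K := ∑ j, a j • (D • z j) with hβ
  have hβR : (β : ℝ) = D * ∑ j, (a j : ℝ) * y j := by
    rw [hβ, Finset.mul_sum]
    push_cast
    refine Finset.sum_congr rfl fun j _ => ?_
    rw [hz]
    simp only [zsmul_eq_mul]
    ring
  have hli0 : ∑ j, (a j : ℝ) * y j ≠ 0 := by
    intro h0
    apply ha
    have h1 := (Fintype.linearIndependent_iff.1 hli) (fun j => (a j : ℚ)) (by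
      rw [← h0]
      refine Finset.sum_congr rfl fun j _ => ?_
      rw [Rat.smul_def]
      push_cast
      rfl)
    funext j
    have := h1 j
    exact_mod_cast this
  have hβ0 : β ≠ 0 := by
    intro h0
    have h1 : (β : ℝ) = 0 := by rw [h0]; rfl
    rw [hβR] at h1
    rcases mul_eq_zero.1 h1 with h2 | h2
    · exact hD0 (by exact_mod_cast h2)
    · exact hli0 h2
  have hint : IsIntegral ℤ β := IsIntegral.sum _ fun j _ => (hDz j).smul (a j)
  have hN1 : (1 : ℝ) ≤ ‖((Algebra.norm ℚ β : ℚ) : ℂ)‖ := by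
    have h1 : IsIntegral ℤ (Algebra.norm ℚ β) := Algebra.isIntegral_norm ℚ hint
    obtain ⟨n, hn⟩ := IsIntegrallyClosed.isIntegral_iff.1 h1
    have hn' : (Algebra.norm ℚ β) = (n : ℚ) := by rw [← hn]; rfl
    have hn0 : n ≠ 0 := by
      rintro rfl
      rw [Int.cast_zero] at hn'
      exact (Algebra.norm_ne_zero_iff.2 hβ0) hn'
    rw [hn']
    push_cast
    rw [Complex.norm_intCast]
    exact_mod_cast Int.one_le_abs hn0
  have hprod : ((Algebra.norm ℚ β : ℚ) : ℂ) = ∏ σ : K →ₐ[ℚ] ℂ, σ β := by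
    have := Algebra.norm_eq_prod_embeddings ℚ ℂ β
    rw [← this]
    rfl
  rw [hprod, norm_prod] at hN1
  have hσ : ∀ σ : K →ₐ[ℚ] ℂ, ‖σ β‖ ≤ H * S := by
    intro σ
    rw [hβ, map_sum]
    calc ‖∑ j, σ (a j • (D • z j))‖ ≤ ∑ j, ‖σ (a j • (D • z j))‖ := norm_sum_le _ _
      _ ≤ ∑ j, H * ‖σ (D • z j)‖ := by
          refine Finset.sum_le_sum fun j _ => ?_
          rw [map_zsmul, zsmul_eq_mul, norm_mul, Complex.norm_intCast]
          exact mul_le_mul_of_nonneg_right (haH j) (norm_nonneg _)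
      _ = H * ∑ j, ‖σ (D • z j)‖ := by rw [Finset.mul_sum]
      _ ≤ H * S := by
          refine mul_le_mul_of_nonneg_left ?_ (by linarith)
          have : ∑ j, ‖σ (D • z j)‖ ≤ ∑ σ : K →ₐ[ℚ] ℂ, ∑ j, ‖σ (D • z j)‖ :=
            Finset.single_le_sum (f := fun σ : K →ₐ[ℚ] ℂ => ∑ j, ‖σ (D • z j)‖)
              (fun σ _ => Finset.sum_nonneg fun j _ => norm_nonneg _) (Finset.mem_univ σ)
          linarith
  have hσ0 : ‖σ₀ β‖ = |(D : ℝ)| * |∑ j, (a j : ℝ) * y j| := by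
    have h1 : σ₀ β = ((β : ℝ) : ℂ) := rfl
    rw [h1, Complex.norm_real, hβR, Real.norm_eq_abs, abs_mul]
  have hsplit : ∏ σ : K →ₐ[ℚ] ℂ, ‖σ β‖ ≤ ‖σ₀ β‖ * (H * S) ^ (finrank ℚ K - 1) := by
    rw [← Finset.mul_prod_erase _ _ (Finset.mem_univ σ₀)]
    refine mul_le_mul_of_nonneg_left ?_ (norm_nonneg _)
    refine (Finset.prod_le_prod (fun σ _ => norm_nonneg _) fun σ _ => hσ σ).trans (le_of_eq ?_)
    rw [Finset.prod_const, Finset.card_erase_of_mem (Finset.mem_univ _), Finset.card_univ,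
      AlgHom.card]
  rw [div_le_iff₀ (by positivity)]
  have h1 := hN1.trans hsplit
  rw [hσ0, mul_pow] at h1
  calc (1 : ℝ) ≤ |(D : ℝ)| * |∑ j, (a j : ℝ) * y j| *
        (H ^ (finrank ℚ K - 1) * S ^ (finrank ℚ K - 1)) := h1
    _ = _ := by ring

/-- For every `m` there are real (algebraic) numbers `y 0 = 1, y 1, …, y m` with a measure of linear
independence of the form `c H ^ (-m)`. -/
theorem exists_measure (m : ℕ) : ∃ (y : Fin (m + 1) → ℝ) (c : ℝ), y 0 = 1 ∧ 0 < c ∧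
    ∀ a : Fin (m + 1) → ℤ, a ≠ 0 → ∀ H : ℝ, 1 ≤ H → (∀ j, |(a j : ℝ)| ≤ H) →
      c ≤ H ^ m * |∑ j, (a j : ℝ) * y j| := by
  set α : ℝ := (2 : ℝ) ^ (1 / ((m + 1 : ℕ) : ℝ)) with hα
  have hαp : α ^ (m + 1) = 2 := by
    rw [hα, ← Real.rpow_natCast, ← Real.rpow_mul (by norm_num)]
    have : (1 / ((m + 1 : ℕ) : ℝ)) * ((m + 1 : ℕ) : ℝ) = 1 := by
      field_simp
    rw [this, Real.rpow_one]
  have hmin : minpoly ℚ α = X ^ (m + 1) - C 2 := by
    symm
    apply minpoly.eq_of_irreducible_of_monic (irr_X_pow_sub_two (Nat.succ_pos m))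
    · simp [hαp]
    · exact monic_X_pow_sub_C 2 (Nat.succ_ne_zero m)
  have hdeg : (minpoly ℚ α).natDegree = m + 1 := by
    rw [hmin]; exact natDegree_X_pow_sub_C
  have hint : IsIntegral ℚ α := by
    by_contra h
    rw [minpoly.eq_zero h, natDegree_zero] at hdeg
    omega
  have : FiniteDimensional ℚ ℚ⟮α⟯ := adjoin.finiteDimensional hint
  have hfin : finrank ℚ ℚ⟮α⟯ = m + 1 := by rw [adjoin.finrank hint, hdeg]
  have hli : LinearIndependent ℚ (fun j : Fin (m + 1) => α ^ (j : ℕ)) := by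
    have := linearIndependent_pow (K := ℚ) α
    rw [hdeg] at this
    exact this
  obtain ⟨c, hc, hM⟩ := liouville_field ℚ⟮α⟯ (fun j : Fin (m + 1) => α ^ (j : ℕ))
    (fun j => pow_mem (mem_adjoin_simple_self ℚ α) _) hli
  rw [hfin, Nat.add_sub_cancel] at hM
  exact ⟨fun j => α ^ (j : ℕ), c, by simp, hc, hM⟩

end Pool.Agent.Q4.Liou
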