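import Mathlib
import Pool.Agent.Q4.Liou

/-!
# Liouville matrices
-/

set_option autoImplicit false

namespace Pool.Agent.Q4.LiouMat

open Finset Matrix

/-- A real `m × n` matrix `M` is a Liouville matrix: `M y ≠ x` for all integer vectors `x`, `y` which are not
both zero, and for each `N` there are integer vectors `x`, `y` with `‖y‖ > 1` and `‖M y - x‖ < ‖y‖ ^ (-N)`
(all norms are supremum norms). -/
def IsLiouvilleMatrix {m n : ℕ} (M : Matrix (Fin m) (Fin n) ℝ) : Prop :=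
  (∀ (y : Fin n → ℤ) (x : Fin m → ℤ), (y ≠ 0 ∨ x ≠ 0) → M *ᵥ (fun j => (y j : ℝ)) ≠ fun i => (x i : ℝ)) ∧
  ∀ N : ℕ, ∃ (x : Fin m → ℤ) (y : Fin n → ℤ), 1 < ‖y‖ ∧
    ‖M *ᵥ (fun j => (y j : ℝ)) - (fun i => (x i : ℝ))‖ < 1 / ‖y‖ ^ N

lemma one_le_norm {n : ℕ} {y : Fin n → ℤ} (hy : y ≠ 0) : 1 ≤ ‖y‖ := by
  obtain ⟨i, hi⟩ := Function.ne_iff.1 hy
  refine le_trans ?_ (norm_le_pi_norm y i)
  rw [Int.norm_eq_abs]
  exact_mod_cast Int.one_le_abs hi

lemma two_le_norm {n : ℕ} {y : Fin n → ℤ} (hy : 1 < ‖y‖) : 2 ≤ ‖y‖ := by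
  by_contra hcon
  push Not at hcon
  have : ‖y‖ ≤ 1 := by
    rw [pi_norm_le_iff_of_nonneg (by norm_num)]
    intro i
    have h1 : ‖y i‖ < 2 := lt_of_le_of_lt (norm_le_pi_norm y i) hcon
    rw [Int.norm_eq_abs] at h1 ⊢
    have h2 : |y i| < 2 := by exact_mod_cast h1
    have h3 : |y i| ≤ 1 := by omega
    exact_mod_cast h3
  linarith

/-- a power lower bound excludes the second property of Liouville matrices -/
lemma not_liouville_of_bound {m n : ℕ} (M : Matrix (Fin m) (Fin n) ℝ) (c : ℝ) (hc : 0 < c) (E : ℕ)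
    (h : ∀ (x : Fin m → ℤ) (y : Fin n → ℤ), y ≠ 0 →
      c ≤ ‖y‖ ^ E * ‖M *ᵥ (fun j => (y j : ℝ)) - (fun i => (x i : ℝ))‖) :
    ¬ IsLiouvilleMatrix M := by
  rintro ⟨-, h2⟩
  obtain ⟨K, hK⟩ := pow_unbounded_of_one_lt (1 / c) (one_lt_two : (1 : ℝ) < 2)
  obtain ⟨x, y, hy1, hy2⟩ := h2 (E + K)
  have hy0 : y ≠ 0 := by
    rintro rfl
    rw [norm_zero] at hy1
    linarith
  have hy2' := two_le_norm hy1
  have hpos : 0 < ‖y‖ := by linarith
  have h3 := h x y hy0
  have h4 : ‖y‖ ^ E * ‖M *ᵥ (fun j => (y j : ℝ)) - (fun i => (x i : ℝ))‖ < ‖y‖ ^ E * (1 / ‖y‖ ^ (E + K)) :=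
    mul_lt_mul_of_pos_left hy2 (by positivity)
  have h5 : ‖y‖ ^ E * (1 / ‖y‖ ^ (E + K)) = 1 / ‖y‖ ^ K := by
    rw [pow_add]
    field_simp
  rw [h5] at h4
  have h6 : (2 : ℝ) ^ K ≤ ‖y‖ ^ K := pow_le_pow_left₀ (by norm_num) hy2' K
  have h7 : c < 1 / ‖y‖ ^ K := lt_of_le_of_lt h3 h4
  rw [lt_div_iff₀ (by positivity)] at h7
  rw [div_lt_iff₀ hc] at hK
  nlinarith

/-- For `1 × 1` matrices these are the Liouville numbers. -/
theorem isLiouvilleMatrix_one_iff (a : ℝ) :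
    IsLiouvilleMatrix (fun _ _ : Fin 1 => a) ↔ Liouville a := by
  have hmul : ∀ y : Fin 1 → ℤ, (fun _ _ : Fin 1 => a : Matrix (Fin 1) (Fin 1) ℝ) *ᵥ (fun j => (y j : ℝ)) =
      fun _ => a * y 0 := by
    intro y
    funext i
    simp [Matrix.mulVec, dotProduct]
  have hnorm : ∀ y : Fin 1 → ℤ, ‖y‖ = |(y 0 : ℝ)| := by
    intro y
    rw [Pi.norm_def]
    simp [Int.norm_eq_abs]
  have hnorm' : ∀ y : Fin 1 → ℝ, ‖y‖ = |y 0| := by
    intro y
    rw [Pi.norm_def]
    simp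
  constructor
  · rintro ⟨h1, h2⟩ N
    obtain ⟨x, y, hy1, hy2⟩ := h2 N
    rw [hmul, hnorm', hnorm] at hy2
    rw [hnorm] at hy1
    simp only [Pi.sub_apply] at hy2
    have hy0 : y 0 ≠ 0 := by
      intro h0
      rw [h0] at hy1
      simp at hy1
      linarith
    -- make the denominator positive
    have hb : (0 : ℝ) < |(y 0 : ℝ)| := by linarith
    have hx : ∀ p q : ℤ, q ≠ 0 → a ≠ (p : ℝ) / q := by
      intro p q hq hEq
      apply h1 (fun _ => q) (fun _ => p) (Or.inl (fun h => hq (congrFun h 0)))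
      rw [hmul]
      funext i
      rw [hEq]
      have : (q : ℝ) ≠ 0 := by exact_mod_cast hq
      field_simp
    refine ⟨x 0 * (y 0).sign, |y 0|, ?_, ?_, ?_⟩
    · have : (1 : ℝ) < ((|y 0| : ℤ) : ℝ) := by push_cast; exact hy1
      exact_mod_cast this
    · exact hx _ _ (abs_ne_zero.2 hy0)
    · have e : a - ((x 0 * (y 0).sign : ℤ) : ℝ) / ((|y 0| : ℤ) : ℝ) = (a * y 0 - x 0) / y 0 := by
        have hyr : (y 0 : ℝ) ≠ 0 := by exact_mod_cast hy0
        have hs : ((|y 0| : ℤ) : ℝ) = (y 0 : ℝ) * ((y 0).sign : ℝ) := by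
          have := Int.mul_sign_self (y 0)
          rw [← Int.natCast_natAbs]
          have h3 : ((y 0 * (y 0).sign : ℤ) : ℝ) = (((y 0).natAbs : ℤ) : ℝ) := by rw [this]
          push_cast at h3 ⊢
          exact h3.symm
        have hsgn : ((y 0).sign : ℝ) ≠ 0 := by
          have := Int.sign_eq_zero_iff_zero.not.2 hy0
          exact_mod_cast this
        rw [hs]
        push_cast
        field_simp
      rw [e, abs_div, div_lt_iff₀ hb]
      have h3 : (1 : ℝ) ≤ |(y 0 : ℝ)| := by linarith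
      push_cast
      refine lt_of_lt_of_le hy2 ?_
      have : 0 < 1 / |(y 0 : ℝ)| ^ N := by positivity
      nlinarith
  · intro h
    have hirr := h.irrational
    refine ⟨?_, ?_⟩
    · intro y x hyx hEq
      rw [hmul] at hEq
      have h0 : a * (y 0 : ℝ) = (x 0 : ℝ) := congrFun hEq 0
      by_cases hy : y 0 = 0
      · rw [hy] at h0
        have hx0 : x 0 = 0 := by
          have : (x 0 : ℝ) = 0 := by rw [← h0]; simp
          exact_mod_cast this
        rcases hyx with h1 | h1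
        · exact h1 (by funext i; rw [Subsingleton.elim i 0]; exact hy)
        · exact h1 (by funext i; rw [Subsingleton.elim i 0]; exact hx0)
      · apply hirr
        refine ⟨(x 0 : ℚ) / (y 0 : ℚ), ?_⟩
        have hyr : (y 0 : ℝ) ≠ 0 := by exact_mod_cast hy
        push_cast
        rw [← h0]
        field_simp
    · intro N
      obtain ⟨p, q, hq, -, hlt⟩ := h (N + 1)
      refine ⟨fun _ => p, fun _ => q, ?_, ?_⟩
      · rw [hnorm]
        have : (1 : ℝ) < (q : ℝ) := by exact_mod_cast hq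
        rw [abs_of_pos (by linarith)]
        exact this
      · rw [hmul, hnorm', hnorm]
        simp only [Pi.sub_apply]
        have hq1 : (1 : ℝ) < (q : ℝ) := by exact_mod_cast hq
        have hq0 : (0 : ℝ) < (q : ℝ) := by linarith
        rw [abs_of_pos hq0]
        have e : a * q - p = (a - p / q) * q := by field_simp
        rw [e, abs_mul, abs_of_pos hq0]
        calc |a - (p : ℝ) / q| * q < 1 / (q : ℝ) ^ (N + 1) * q := mul_lt_mul_of_pos_right hlt hq0
          _ = 1 / (q : ℝ) ^ N := by rw [pow_succ]; field_simp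

end Pool.Agent.Q4.LiouMat
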