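import Pool.Agent.Y738.BC.Fix

set_option autoImplicit false

/-!
# The subspace theorem for sequences of integer points, in a directly applicable form

For sequences of integer vectors `X t` with prescribed divisibility by powers of pairwise coprime
integers and small values of `n` linearly independent linear forms with real algebraic
coefficients, a positive total weight forces a fixed integer linear relation along an ultrafilter.
-/

namespace Pool.Agent.Q4.SubApp

open Filter Topology Pool.Agent.TH932.Abs Pool.Agent.TH932.Germs Pool.Agent.TH932.Chi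
open Pool.Agent.TH796.AL Pool.Agent.TH416.AL

/-- `ℤ`-linearly independent rational germs are linearly independent over every number field -/
theorem lin_of (F : IntermediateField ℚ ℝ) [FiniteDimensional ℚ F] {n : ℕ} (x : Fin n → GG)
    (hx : ∀ c : Fin n → ℤ, ∑ i, (c i : GG) * x i = 0 → ∀ i, c i = 0)
    (f : Fin n → F) (hf : ∑ i, algebraMap ℝ HR (f i : ℝ) * rho (x i) = 0) : ∀ i, f i = 0 := by
  classical
  -- rational relations vanish
  have hq : ∀ c : Fin n → ℚ, ∑ i, (c i : GG) * x i = 0 → ∀ i, c i = 0 := by
    intro c hc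
    obtain ⟨N, hN⟩ := IsLocalization.exist_integer_multiples_of_finite (nonZeroDivisors ℤ) c
    have hN0 : (N : ℤ) ≠ 0 := nonZeroDivisors.ne_zero N.2
    choose d hd using hN
    have hd' : ∀ i, (d i : ℚ) = (N : ℤ) * c i := by
      intro i
      have := hd i
      simpa [Algebra.smul_def] using this
    have h1 : ∑ i, (d i : GG) * x i = 0 := by
      have : ∀ i, (d i : GG) = ((N : ℤ) : GG) * (c i : GG) := by
        intro i
        have h := hd' i
        have h2 : ((d i : ℚ) : GG) = (((N : ℤ) * c i : ℚ) : GG) := by rw [h]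
        push_cast at h2
        exact h2
      calc ∑ i, (d i : GG) * x i = ∑ i, ((N : ℤ) : GG) * ((c i : GG) * x i) := by
            refine Finset.sum_congr rfl fun i _ => ?_
            rw [this i, mul_assoc]
        _ = 0 := by rw [← Finset.mul_sum, hc, mul_zero]
    intro i
    have h2 := hx d h1 i
    have h3 := hd' i
    rw [h2] at h3
    have hN1 : ((N : ℤ) : ℚ) ≠ 0 := by exact_mod_cast hN0
    have : ((N : ℤ) : ℚ) * c i = 0 := by rw [← h3]; simp
    rcases mul_eq_zero.1 this with h4 | h4
    · exact absurd h4 hN1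
    · exact h4
  -- a basis of `F`
  let b := Module.finBasis ℚ F
  have hb : LinearIndependent ℚ (fun k => ((b k : F) : ℝ)) := by
    have := b.linearIndependent
    have h2 := this.map' (F.val.toLinearMap) (by
      rw [LinearMap.ker_eq_bot]
      exact F.val.injective)
    exact h2
  have key : ∑ k, algebraMap ℝ HR ((b k : F) : ℝ) * rho (∑ i, ((b.repr (f i) k : ℚ) : GG) * x i)
      = 0 := by
    rw [← hf]
    have e1 : ∀ i, algebraMap ℝ HR (f i : ℝ) * rho (x i)
        = ∑ k, algebraMap ℝ HR ((b k : F) : ℝ) * rho (((b.repr (f i) k : ℚ) : GG) * x i) := by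
      intro i
      have h3 : (f i : ℝ) = ∑ k, (b.repr (f i) k : ℝ) * ((b k : F) : ℝ) := by
        have h4 := congrArg (algebraMap F ℝ) (b.sum_repr (f i)).symm
        rw [map_sum] at h4
        have h5 : (f i : ℝ) = algebraMap F ℝ (f i) := rfl
        rw [h5, h4]
        refine Finset.sum_congr rfl fun k _ => ?_
        rw [Algebra.smul_def, map_mul]
        rfl
      rw [h3, map_sum, Finset.sum_mul]
      refine Finset.sum_congr rfl fun k _ => ?_
      rw [map_mul, alg_rat, map_mul]
      ring
    simp_rw [e1]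
    rw [Finset.sum_comm]
    refine Finset.sum_congr rfl fun k _ => ?_
    rw [map_sum, Finset.mul_sum]
  have h5 := disj _ inferInstance _ hb _ key
  intro i
  have h6 : ∀ k, b.repr (f i) k = 0 := fun k => hq _ (h5 k) i
  have : b.repr (f i) = 0 := by
    ext k
    simp [h6 k]
  exact b.repr.map_eq_zero_iff.1 this

theorem sub_app {m : ℕ} (B : Base m) (L : ℕ → ℝ) (hL : Tendsto L atTop atTop)
    (F : IntermediateField ℚ ℝ) [hFd : FiniteDimensional ℚ F] (n : ℕ) (X : Fin n → ℕ → ℤ)
    (c : Fin n → Fin n → ℝ) (hcF : ∀ i j, c i j ∈ F)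
    (hc : ∀ a : Fin n → ℝ, (∀ j, ∑ i, a i * c i j = 0) → ∀ i, a i = 0)
    (w : Fin m → Fin n → ℝ) (wI : Fin n → ℝ)
    (hw : ∀ v i, ∀ ε : ℝ, 0 < ε → ∀ᶠ t in (UU : Filter ℕ), ∃ k : ℕ,
      (B.P v : ℤ) ^ k ∣ X i t ∧ (w v i - ε) * L t ≤ k * Real.log (B.P v))
    (hwI : ∀ i, ∀ ε : ℝ, 0 < ε → ∀ᶠ t in (UU : Filter ℕ),
      |∑ j, c i j * X j t| ≤ Real.exp (-(wI i - ε) * L t))
    (hpos : 0 < ∑ v, ∑ i, w v i + ∑ i, wI i) :
    ∃ a : Fin n → ℤ, a ≠ 0 ∧ ∀ᶠ t in (UU : Filter ℕ), ∑ i, a i * X i t = 0 := by
  classical
  by_contra hcon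
  push Not at hcon
  set x : Fin n → GG := fun i => gm fun t => (X i t : ℚ) with hxdef
  have sumX : ∀ a : Fin n → ℤ, ∑ i, (a i : GG) * x i = gm fun t => ((∑ i, a i * X i t : ℤ) : ℚ) := by
    intro a
    have : ∀ s : Finset (Fin n), ∑ i ∈ s, (a i : GG) * x i
        = gm fun t => ((∑ i ∈ s, a i * X i t : ℤ) : ℚ) := by
      intro s
      induction s using Finset.induction_on with
      | empty =>
        simp only [Finset.sum_empty, Int.cast_zero]
        exact gm_zero.symm
      | insert i s hi ih =>
        rw [Finset.sum_insert hi, ih]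
        have e : (a i : GG) = gm fun _ => ((a i : ℤ) : ℚ) := rfl
        rw [e, hxdef]
        simp only
        rw [gm_mul, gm_add]
        congr 1
        funext t
        rw [Finset.sum_insert hi]
        push_cast
        ring
    exact this Finset.univ
  have hind : ∀ a : Fin n → ℤ, ∑ i, (a i : GG) * x i = 0 → ∀ i, a i = 0 := by
    intro a ha
    by_contra h0
    push Not at h0
    obtain ⟨i, hi⟩ := h0
    have hne : a ≠ 0 := by
      intro h; apply hi; rw [h]; rfl
    have h1 := hcon a hne
    rw [sumX, ← gm_zero, gm_eq] at ha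
    obtain ⟨t, ht1, ht2⟩ := (ha.and h1).exists
    exact ht2 (by exact_mod_cast ht1)
  set z : Fin n → HR := fun i => ∑ j, algebraMap ℝ HR (c i j) * rho (x j) with hzdef
  have hzg : ∀ i, z i = gr fun t => ∑ j, c i j * (X j t : ℝ) := by
    intro i
    rw [hzdef]
    simp only
    rw [← gr_sum]
    refine Finset.sum_congr rfl fun j _ => ?_
    rw [hxdef]
    simp only
    rw [rho_gm, cst_eq, gr_mul]
    congr 1
  have hlin : LinearIndependent F z := by
    rw [Fintype.linearIndependent_iff]
    intro a ha
    have h1 : ∑ j, algebraMap ℝ HR (((∑ i, a i * ⟨c i j, hcF i j⟩ : F)) : ℝ) * rho (x j) = 0 := by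
      rw [← ha]
      have e1 : ∀ i, a i • z i = ∑ j, algebraMap ℝ HR ((a i : ℝ) * c i j) * rho (x j) := by
        intro i
        rw [hzdef]
        simp only
        rw [Finset.smul_sum]
        refine Finset.sum_congr rfl fun j _ => ?_
        rw [Algebra.smul_def, algF, map_mul]
        ring
      simp_rw [e1]
      rw [Finset.sum_comm]
      refine Finset.sum_congr rfl fun j _ => ?_
      rw [← Finset.sum_mul, ← map_sum]
      congr 2
      push_cast
      rfl
    have h2 := lin_of F x hind _ h1
    have h3 : ∀ j, ∑ i, (a i : ℝ) * c i j = 0 := by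
      intro j
      have := congrArg (fun y : F => (y : ℝ)) (h2 j)
      simpa using this
    intro i
    have := hc _ h3 i
    exact_mod_cast this
  have hspan : ∀ i, z i ∈ Submodule.span F (Set.range fun j => rho (x j)) := by
    intro i
    rw [hzdef]
    simp only
    refine Submodule.sum_mem _ fun j _ => ?_
    have : algebraMap ℝ HR (c i j) * rho (x j) = (⟨c i j, hcF i j⟩ : F) • rho (x j) := by
      rw [Algebra.smul_def, algF]
    rw [this]
    exact Submodule.smul_mem _ _ (Submodule.subset_span ⟨j, rfl⟩)
  have hfix := Pool.Agent.Y738.BC.Fix.fixa_thm m B L hL F hFd n x z w wI hind hlin hspan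
    (by
      intro v i
      change gm _ ∈ SS L (Rv B (some v)) (w v i)
      rw [mem_SS]
      intro ε hε
      filter_upwards [hw v i ε hε, L_nonneg hL] with t ht hLt
      obtain ⟨k, ⟨y, hy⟩, hk⟩ := ht
      refine ⟨1, 1, y, k, one_ne_zero, ?_, (Pool.Agent.TH932.Germs.cop (B.P v)).one_mem, ?_, ?_⟩
      · simp only [Int.cast_one, abs_one]
        exact Real.one_le_exp (by positivity)
      · rw [hy]
        push_cast
        rw [zpow_natCast]
        ring
      · exact_mod_cast hk)
    (by
      intro i
      exact ⟨_, hzg i, hwI i⟩)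
    (by
      intro i
      refine ⟨0, ?_⟩
      change gm _ ∈ SS L (RS B) 0
      rw [mem_SS]
      intro ε hε
      filter_upwards [L_nonneg hL] with t hLt
      refine ⟨1, X i t, fun _ => 0, one_ne_zero, ?_, by simp, ?_⟩
      · simp only [Int.cast_one, abs_one]
        exact Real.one_le_exp (by positivity)
      · intro v
        simp only [Int.cast_zero, zero_mul]
        nlinarith)
  linarith

end Pool.Agent.Q4.SubApp
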